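import Pool.Agent.V8H82.DM.Dom
import Pool.Agent.Q181.TG.Chain

/-!
# Torsion growth for dominated matrices

`G` is an arbitrary group and `ℤ[G]^ι → ℤ[G]^κ → ℤ[G]^θ` a part of a complex of finitely generated free
modules, with matrices `A`, `D` (for instance the cellular chain complex of the universal cover of a
closed aspherical manifold in the degrees `k + 1`, `k`, `k - 1`). For a finite `G`-set `X`, for instance
`X = G ⧸ N`, it gives a complex of free abelian groups; in the example its homology is `H_k` of the
finite cover. We assume that in each row and in each column of `A` one coefficient is at least as large,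
in absolute value, as all the others together; equality is allowed, and signs are arbitrary.
-/

set_option autoImplicit false

namespace Pool.Agent.Results.MP_98dedd_gt.DominatedMatrices

open Pool.Agent.V8H82.DM Pool.Agent.Q181.TG Filter Topology Matrix

/-- The order of the torsion subgroup of the homology, at the middle term, of the complex
`ℤ^(X × ι) → ℤ^(X × κ) → ℤ^(X × θ)` of the `G`-set `X`. -/
noncomputable def torsH {G : Type} [Group G] {ι κ θ : Type} [Fintype κ]
    (A : Matrix ι κ (MonoidAlgebra ℤ G)) (D : Matrix κ θ (MonoidAlgebra ℤ G)) (X : Type)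
    [Fintype X] [MulAction G X] : ℕ :=
  tc (LinearMap.ker (reg X D).vecMulLinear ⧸
    (Submodule.span ℤ (Set.range (reg X A))).submoduleOf (LinearMap.ker (reg X D).vecMulLinear))

/-- A decreasing chain of normal subgroups of finite index with trivial intersection. -/
def IsChain {G : Type} [Group G] (N : ℕ → Subgroup G) : Prop :=
  (∀ n, (N n).Normal) ∧ (∀ n, (N n).FiniteIndex) ∧ N 0 = ⊤ ∧ Antitone N ∧ ⨅ n, N n = ⊥

theorem key (G : Type) [Group G] (ι κ θ : Type) [Fintype κ] [Fintype θ]
    (A : Matrix ι κ (MonoidAlgebra ℤ G)) (D : Matrix κ θ (MonoidAlgebra ℤ G)) (hAD : A * D = 0)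
    (X : Type) [Fintype X] [MulAction G X] : torsH A D X = tc (Cok (reg X A)) := by
  classical
  have h0 : reg X (0 : Matrix ι θ (MonoidAlgebra ℤ G)) = 0 := by
    ext p q
    simp [reg]
  exact Pool.Agent.Q66.TG.t_hom _ _ _ (reg X A) (reg X D) (by rw [← reg_mul, hAD, h0])

/-- Let `G` be a group.

(1) Let `A`, `D` be matrices over `ℤ[G]` with `A * D = 0`, and in every row and in every column of `A`
let one coefficient dominate all the others (`Dom A`). Then the logarithm of the order of the torsion of
the middle homology of a finite `G`-set `X` is, up to `ε * |X|`, a sum of local terms: the term of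
`x : X` depends only on the elements of a finite set `S` which fix `x`; and `S` and the terms depend only
on `A` and `ε`. The normalized logarithms converge along every sequence of finite `G`-sets which
converges in the sense of Benjamini and Schramm.

(2) Let `A = c - B`, where in each row and in each column of the square matrix `B` the sum of the absolute
values of all coefficients is at most `c`. Then for all Farber sequences of finite `G`-sets the
normalized logarithms converge to the same number `L`. With the power series `logdet B c s` for the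
logarithm of the Fuglede-Kadison determinant of `A + s` and `green0 B c s i` for the diagonal entries of
the inverse of `A + s`, the numbers `s * green0 B c s i` converge for `s → 0` to `p i`, and
`L` is the limit of `logdet B c s - log s * ∑ i, p i - ∑ i, - p i * log (p i)`.

(3) Decreasing chains of normal subgroups of finite index with trivial intersection are Farber
sequences. -/
theorem result (G : Type) [Group G] :
    (∀ (ι κ : Type) [Fintype ι] [Fintype κ] (A : Matrix ι κ (MonoidAlgebra ℤ G)), Dom A →
      (∀ ε : ℝ, 0 < ε → ∃ (S : Finset G) (Φ : Finset G → ℝ),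
        ∀ (θ : Type) [Fintype θ] (D : Matrix κ θ (MonoidAlgebra ℤ G)), A * D = 0 →
          ∀ (X : Type) [Fintype X] [MulAction G X],
            |Real.log (torsH A D X) - ∑ x : X, Φ (pat S x)| ≤ ε * Fintype.card X) ∧
      ∀ (X : ℕ → Type) [∀ n, Fintype (X n)] [∀ n, Nonempty (X n)] [∀ n, MulAction G (X n)],
        BSConv G X → ∃ L : ℝ, ∀ (θ : Type) [Fintype θ] (D : Matrix κ θ (MonoidAlgebra ℤ G)),
          A * D = 0 → Tendsto (fun n => Real.log (torsH A D (X n)) / Fintype.card (X n)) atTop
            (𝓝 L)) ∧
    (∀ (ι : Type) [Fintype ι] [DecidableEq ι] (B : Matrix ι ι (MonoidAlgebra ℤ G)) (c : ℕ),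
      (∀ i, ∑ j, nm (B i j) ≤ c) → (∀ j, ∑ i, nm (B i j) ≤ c) → ∃ (p : ι → ℝ) (L : ℝ),
        ∀ (X : ℕ → Type) [∀ n, Fintype (X n)] [∀ n, Nonempty (X n)] [∀ n, MulAction G (X n)],
          Far G X →
            (∀ i, Tendsto (fun s => s * green0 B c s i) (𝓝[>] 0) (𝓝 (p i))) ∧
            Tendsto (fun s => logdet B c s - Real.log s * ∑ i, p i - ∑ i, - p i * Real.log (p i))
              (𝓝[>] 0) (𝓝 L) ∧
            ∀ (θ : Type) [Fintype θ] (D : Matrix ι θ (MonoidAlgebra ℤ G)),
              (c • (1 : Matrix ι ι (MonoidAlgebra ℤ G)) - B) * D = 0 →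
                Tendsto (fun n => Real.log (torsH (c • (1 : Matrix ι ι (MonoidAlgebra ℤ G)) - B) D
                  (X n)) / Fintype.card (X n)) atTop (𝓝 L)) ∧
    ∀ N : ℕ → Subgroup G, IsChain N → Far G (fun n => G ⧸ N n) := by
  classical
  refine ⟨?_, ?_, ?_⟩
  · intro ι κ _ _ A hA
    obtain ⟨c, B, h1, h2, h3⟩ := hA.reduce
    constructor
    · intro ε hε
      obtain ⟨s, K, hs, hs1, hK, h4⟩ := testable h1 h2 (ε / 2) (by linarith)
      obtain ⟨S, Φ, h5⟩ := dn_loc h1 h2 s K (ε / 2) (by linarith)
      refine ⟨S, Φ, fun θ _ D hD X _ _ => ?_⟩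
      rw [key G ι κ θ A D hD X, ← h3 X]
      have h6 := h4 X
      have h7 : |∑ x : X, dn B c s K X x - ∑ x : X, Φ (pat S x)| ≤ Fintype.card X * (ε / 2) := by
        rw [← Finset.sum_sub_distrib]
        refine (Finset.abs_sum_le_sum_abs _ _).trans ?_
        have h8 : ∑ x : X, |dn B c s K X x - Φ (pat S x)| ≤ ∑ x : X, ε / 2 :=
          Finset.sum_le_sum fun x _ => h5 X x
        rw [Finset.sum_const, nsmul_eq_mul, Finset.card_univ] at h8
        exact h8
      rw [abs_le] at h6 h7 ⊢
      constructor <;> linarith [h6.1, h6.2, h7.1, h7.2]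
    · intro X _ _ _ hX
      obtain ⟨L, hL⟩ := conv_BS h1 h2 X hX
      refine ⟨L, fun θ _ D hD => hL.congr fun n => ?_⟩
      rw [key G ι κ θ A D hD (X n), h3 (X n)]
  · intro ι _ _ B c h1 h2
    have aux : ∀ (X : ℕ → Type) [∀ n, Fintype (X n)] [∀ n, Nonempty (X n)]
        [∀ n, MulAction G (X n)], Far G X → ∃ (p : ι → ℝ) (L : ℝ),
          (∀ i, Tendsto (fun s => s * green0 B c s i) (𝓝[>] 0) (𝓝 (p i))) ∧
          Tendsto (fun s => logdet B c s - Real.log s * ∑ i, p i - ∑ i, - p i * Real.log (p i))
            (𝓝[>] 0) (𝓝 L) ∧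
          Tendsto (fun n => Real.log (tc (Cok (reg (X n)
            (c • (1 : Matrix ι ι (MonoidAlgebra ℤ G)) - B)))) / Fintype.card (X n)) atTop (𝓝 L) := by
      intro X _ _ _ hX
      obtain ⟨p, L, h3, h4, h5⟩ := far_formula X hX h1 h2
      have hev : ∀ᶠ s : ℝ in 𝓝[>] 0, 0 < s ∧ s ≤ 1 := by
        filter_upwards [Ioc_mem_nhdsGT (zero_lt_one (α := ℝ))] with s hs
        exact hs
      have hsq : ∀ a : ℝ, Tendsto (fun s => a * Real.sqrt s) (𝓝[>] 0) (𝓝 0) := by
        intro a
        have h6 : Tendsto (fun s => a * Real.sqrt s) (𝓝 0) (𝓝 (a * Real.sqrt 0)) :=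
          (Real.continuous_sqrt.tendsto 0).const_mul a
        rw [Real.sqrt_zero, mul_zero] at h6
        exact h6.mono_left nhdsWithin_le_nhds
      refine ⟨p, L, fun i => ?_, ?_, h5⟩
      · rw [tendsto_iff_dist_tendsto_zero]
        refine squeeze_zero' (Eventually.of_forall fun s => dist_nonneg) ?_ (hsq 8)
        filter_upwards [hev] with s hs
        rw [Real.dist_eq, abs_sub_comm]
        exact h3 i s hs.1 hs.2
      · rw [tendsto_iff_dist_tendsto_zero]
        refine squeeze_zero' (Eventually.of_forall fun s => dist_nonneg) ?_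
          (hsq (16 * Fintype.card ι))
        filter_upwards [hev] with s hs
        rw [Real.dist_eq, abs_sub_comm]
        exact h4 s hs.1 hs.2
    by_cases hex : ∃ (X : ℕ → Type) (_ : ∀ n, Fintype (X n)) (_ : ∀ n, Nonempty (X n))
        (_ : ∀ n, MulAction G (X n)), Far G X
    · obtain ⟨X₀, _, _, _, hX₀⟩ := hex
      obtain ⟨p, L, h3, h4, -⟩ := aux X₀ hX₀
      refine ⟨p, L, fun X _ _ _ hX => ⟨h3, h4, fun θ _ D hD => ?_⟩⟩
      obtain ⟨p', L', h3', h4', h5'⟩ := aux X hX
      have hp : p = p' := funext fun i => tendsto_nhds_unique (h3 i) (h3' i)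
      subst hp
      have hL : L = L' := tendsto_nhds_unique h4 h4'
      subst hL
      refine h5'.congr fun n => ?_
      rw [key G ι ι θ _ D hD (X n)]
    · refine ⟨fun _ => 0, 0, fun X _ _ _ hX => ?_⟩
      exact absurd ⟨X, inferInstance, inferInstance, inferInstance, hX⟩ hex
  · intro N hN
    obtain ⟨h1, h2, -, h4, h5⟩ := hN
    exact t_chain G N h1 h2 h4 h5

end Pool.Agent.Results.MP_98dedd_gt.DominatedMatrices
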