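import Pool.Agent.V8H82.FK.Det
import Pool.Agent.Q181.TG.Chain

/-!
# Torsion growth for matrices whose hermitian part is dominated

`G` is an arbitrary group and `ℤ[G]^ι → ℤ[G]^ι → ℤ[G]^θ` a part of a complex of finitely generated free
modules, with matrices `A`, `D` (for instance the cellular chain complex of the universal cover of a
closed aspherical manifold in the degrees `k + 1`, `k`, `k - 1`). For a finite `G`-set `X`, for instance
`X = G ⧸ N`, it gives a complex of free abelian groups; in the example its homology is `H_k` of the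
finite cover. We assume that the hermitian part `A + A^*` is weakly diagonally dominant. The skew part
`A - A^*` is not bounded by the hermitian part: it may be an arbitrary matrix, apart from the condition
`KerCond` on kernels, and we prove this condition in three situations.
-/

set_option autoImplicit false

namespace Pool.Agent.Results.MP_98dedd_gt.HermitianTorsion

open Pool.Agent.V8H82.DM Pool.Agent.V8H82.HT Pool.Agent.V8H82.FK Pool.Agent.Q181.TG Filter Topology
open Matrix MeasureTheory
open Pool.Agent.Helper993.FK (fkDet rMul unitVec specMeas toQ)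
open TH6.LF (adj bar)

/-- The order of the torsion subgroup of the homology, at the middle term, of the complex
`ℤ^(X × ι) → ℤ^(X × κ) → ℤ^(X × θ)` of the `G`-set `X`. -/
noncomputable def torsH {G : Type} [Group G] {ι κ θ : Type} [Fintype κ]
    (A : Matrix ι κ (MonoidAlgebra ℤ G)) (D : Matrix κ θ (MonoidAlgebra ℤ G)) (X : Type)
    [Fintype X] [MulAction G X] : ℕ :=
  tc (LinearMap.ker (reg X D).vecMulLinear ⧸
    (Submodule.span ℤ (Set.range (reg X A))).submoduleOf (LinearMap.ker (reg X D).vecMulLinear))

/-- A decreasing chain of normal subgroups of finite index with trivial intersection. -/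
def IsChain {G : Type} [Group G] (N : ℕ → Subgroup G) : Prop :=
  (∀ n, (N n).Normal) ∧ (∀ n, (N n).FiniteIndex) ∧ N 0 = ⊤ ∧ Antitone N ∧ ⨅ n, N n = ⊥

theorem key (G : Type) [Group G] (ι κ θ : Type) [Fintype κ] [Fintype θ]
    (A : Matrix ι κ (MonoidAlgebra ℤ G)) (D : Matrix κ θ (MonoidAlgebra ℤ G)) (hAD : A * D = 0)
    (X : Type) [Fintype X] [MulAction G X] : torsH A D X = tc (Cok (reg X A)) := by
  classical
  have h0 : reg X (0 : Matrix ι θ (MonoidAlgebra ℤ G)) = 0 := by
    ext p q
    simp [reg]
  exact Pool.Agent.Q66.TG.t_hom _ _ _ (reg X A) (reg X D) (by rw [← reg_mul, hAD, h0])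

/-- Let `G` be a group.

(1) Let `A` be a square matrix over `ℤ[G]` whose hermitian part `A + A^*` is weakly diagonally dominant
(`Dom2 A`), and which satisfies the condition on kernels `KerCond A`. Let `A * D = 0`. Then the logarithm
of the order of the torsion of the middle homology of a finite `G`-set `X` is, up to `ε * |X|`, a sum of
local terms: the term of `x : X` depends only on the elements of a finite set `S` which fix `x`; and `S`
and the terms depend only on `A` and `ε`. The normalized logarithms converge along every sequence of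
finite `G`-sets which converges in the sense of Benjamini and Schramm.

(2) For all Farber sequences of finite `G`-sets the normalized logarithms converge to the same number
`L`. If there are Farber sequences then `s * green0 (bb A) (cc A) s i`, where
`green0 (bb A) (cc A) s i` is the diagonal entry of the inverse of `A + A^* + s`, converges for `s → 0`
to `p i`; the mass at `0` of the spectral measure of `A` (acting on `ℓ²(G)^r`) is `∑ i, p i`; the
Fuglede-Kadison determinant `fkDet (rMul (A.map toQ))` of `A` is positive, and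
`L = log (fkDet (rMul (A.map toQ))) - ∑ i, - p i * log (p i)`. If `A` is injective on `ℓ²(G)^r`, then
`L` is the logarithm of the Fuglede-Kadison determinant of `A`.

(3) The two hypotheses hold if in each row and in each column of `A` the coefficient at `1` of the
diagonal entry dominates.

(4) They hold if `A` has one entry `a`, `a + a^*` is dominated, and the support of `a` is contained in
the subgroup generated by the support of `a + a^*`.

(5) `KerCond A` holds if a nonzero multiple of `A` is a left multiple of `A + A^*`.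

(6) Decreasing chains of normal subgroups of finite index with trivial intersection are Farber
sequences. -/
theorem result (G : Type) [Group G] :
    (∀ (r : ℕ) (A : Matrix (Fin r) (Fin r) (MonoidAlgebra ℤ G)), Dom2 A → KerCond A →
      (∀ ε : ℝ, 0 < ε → ∃ (S : Finset G) (Φ : Finset G → ℝ),
        ∀ (θ : Type) [Fintype θ] (D : Matrix (Fin r) θ (MonoidAlgebra ℤ G)), A * D = 0 →
          ∀ (X : Type) [Fintype X] [MulAction G X],
            |Real.log (torsH A D X) - ∑ x : X, Φ (pat S x)| ≤ ε * Fintype.card X) ∧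
      (∀ (X : ℕ → Type) [∀ n, Fintype (X n)] [∀ n, Nonempty (X n)] [∀ n, MulAction G (X n)],
        BSConv G X → ∃ L : ℝ, ∀ (θ : Type) [Fintype θ] (D : Matrix (Fin r) θ (MonoidAlgebra ℤ G)),
          A * D = 0 → Tendsto (fun n => Real.log (torsH A D (X n)) / Fintype.card (X n)) atTop
            (𝓝 L)) ∧
      ∃ (p : Fin r → ℝ) (L : ℝ),
        ∀ (X : ℕ → Type) [∀ n, Fintype (X n)] [∀ n, Nonempty (X n)] [∀ n, MulAction G (X n)],
          Far G X →
            (∀ i, 0 ≤ p i ∧ p i ≤ 1 ∧
              Tendsto (fun s => s * green0 (bb A) (cc A) s i) (𝓝[>] 0) (𝓝 (p i))) ∧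
            ((specMeas unitVec (rMul (A.map toQ)) {0}).toReal = ∑ i, p i ∧
              0 < fkDet (rMul (A.map toQ)) ∧
              L = Real.log (fkDet (rMul (A.map toQ))) - ∑ i, - p i * Real.log (p i) ∧
              ((∀ v, rMul (A.map toQ) v = 0 → v = 0) →
                L = Real.log (fkDet (rMul (A.map toQ))))) ∧
            ∀ (θ : Type) [Fintype θ] (D : Matrix (Fin r) θ (MonoidAlgebra ℤ G)), A * D = 0 →
              Tendsto (fun n => Real.log (torsH A D (X n)) / Fintype.card (X n)) atTop (𝓝 L)) ∧
    (∀ (r : ℕ) (A : Matrix (Fin r) (Fin r) (MonoidAlgebra ℤ G)),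
      (∀ i, ∑ j, nm (A i j) ≤ 2 * (A i i).coeff 1) →
      (∀ j, ∑ i, nm (A i j) ≤ 2 * (A j j).coeff 1) → Dom2 A ∧ KerCond A) ∧
    (∀ a : MonoidAlgebra ℤ G, nm (a + bar a) ≤ 2 * (a + bar a).coeff 1 →
      (a.coeff.support : Set G) ⊆ Subgroup.closure ((a + bar a).coeff.support : Set G) →
        Dom2 (fun _ _ => a : Matrix (Fin 1) (Fin 1) (MonoidAlgebra ℤ G)) ∧
        KerCond (fun _ _ => a : Matrix (Fin 1) (Fin 1) (MonoidAlgebra ℤ G))) ∧
    (∀ (r : ℕ) (A U : Matrix (Fin r) (Fin r) (MonoidAlgebra ℤ G)) (k : ℕ), k ≠ 0 →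
      k • A = U * (A + adj A) → KerCond A) ∧
    ∀ N : ℕ → Subgroup G, IsChain N → Far G (fun n => G ⧸ N n) := by
  classical
  refine ⟨?_, ?_, ?_, ?_, ?_⟩
  · intro r A hA hk
    refine ⟨?_, ?_, ?_⟩
    · intro ε hε
      obtain ⟨q, K, hq, h4⟩ := testable hA hk (ε / 2) (by linarith)
      obtain ⟨S, Φ, h5⟩ := dn_loc hA q K (ε / 2) (by linarith)
      refine ⟨S, Φ, fun θ _ D hD X _ _ => ?_⟩
      rw [key G (Fin r) (Fin r) θ A D hD X]
      have h6 := h4 X
      have h7 : |∑ x : X, dn A q K X x - ∑ x : X, Φ (pat S x)| ≤ Fintype.card X * (ε / 2) := by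
        rw [← Finset.sum_sub_distrib]
        refine (Finset.abs_sum_le_sum_abs _ _).trans ?_
        have h8 : ∑ x : X, |dn A q K X x - Φ (pat S x)| ≤ ∑ x : X, ε / 2 :=
          Finset.sum_le_sum fun x _ => h5 X x
        rw [Finset.sum_const, nsmul_eq_mul, Finset.card_univ] at h8
        exact h8
      rw [abs_le] at h6 h7 ⊢
      constructor <;> linarith [h6.1, h6.2, h7.1, h7.2]
    · intro X _ _ _ hX
      obtain ⟨L, hL⟩ := conv_BS hA hk X hX
      refine ⟨L, fun θ _ D hD => hL.congr fun n => ?_⟩
      rw [key G (Fin r) (Fin r) θ A D hD (X n)]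
    · have aux : ∀ (X : ℕ → Type) [∀ n, Fintype (X n)] [∀ n, Nonempty (X n)]
          [∀ n, MulAction G (X n)], Far G X → ∃ (p : Fin r → ℝ) (L : ℝ),
            (∀ i, 0 ≤ p i ∧ p i ≤ 1 ∧
              Tendsto (fun s => s * green0 (bb A) (cc A) s i) (𝓝[>] 0) (𝓝 (p i))) ∧
            ((specMeas unitVec (rMul (A.map toQ)) {0}).toReal = ∑ i, p i ∧
              0 < fkDet (rMul (A.map toQ)) ∧
              L = Real.log (fkDet (rMul (A.map toQ))) - ∑ i, - p i * Real.log (p i) ∧
              ((∀ v, rMul (A.map toQ) v = 0 → v = 0) →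
                L = Real.log (fkDet (rMul (A.map toQ))))) ∧
            Tendsto (fun n => Real.log (tc (Cok (reg (X n) A))) / Fintype.card (X n)) atTop
              (𝓝 L) := by
        intro X _ _ _ hX
        obtain ⟨p, L, h01, h3, -, h5, h6⟩ := spectral X hX hA hk
        obtain ⟨g1, g2, g3⟩ := h6 _ (isSpectral_specMeas A)
        obtain ⟨k1, k2⟩ := log_fkDet A g2
        refine ⟨p, L, fun i => ⟨(h01 i).1, (h01 i).2, ?_⟩, ⟨g1, k1, ?_, fun hinj => ?_⟩, h5⟩
        · have hev : ∀ᶠ s : ℝ in 𝓝[>] 0, 0 < s ∧ s ≤ 1 := by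
            filter_upwards [Ioc_mem_nhdsGT (zero_lt_one (α := ℝ))] with s hs
            exact hs
          have hsq : Tendsto (fun s => 8 * Real.sqrt s) (𝓝[>] 0) (𝓝 0) := by
            have h6 : Tendsto (fun s => 8 * Real.sqrt s) (𝓝 0) (𝓝 (8 * Real.sqrt 0)) :=
              (Real.continuous_sqrt.tendsto 0).const_mul 8
            rw [Real.sqrt_zero, mul_zero] at h6
            exact h6.mono_left nhdsWithin_le_nhds
          rw [tendsto_iff_dist_tendsto_zero]
          refine squeeze_zero' (Eventually.of_forall fun s => dist_nonneg) ?_ hsq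
          filter_upwards [hev] with s hs
          rw [Real.dist_eq, abs_sub_comm]
          exact h3 i s hs.1 hs.2
        · rw [k2]
          exact g3
        · rw [mass_zero A hinj, ENNReal.toReal_zero] at g1
          have h7 := (Finset.sum_eq_zero_iff_of_nonneg fun i _ => (h01 i).1).1 g1.symm
          rw [k2, g3, Finset.sum_eq_zero fun i hi => by rw [h7 i hi, Real.negMulLog_zero], sub_zero]
      by_cases hex : ∃ (X : ℕ → Type) (_ : ∀ n, Fintype (X n)) (_ : ∀ n, Nonempty (X n))
          (_ : ∀ n, MulAction G (X n)), Far G X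
      · obtain ⟨X₀, _, _, _, hX₀⟩ := hex
        obtain ⟨p, L, h3, hν, -⟩ := aux X₀ hX₀
        refine ⟨p, L, fun X _ _ _ hX => ⟨h3, hν, fun θ _ D hD => ?_⟩⟩
        obtain ⟨p', L', h3', hν', h5'⟩ := aux X hX
        have hp : p = p' := funext fun i => tendsto_nhds_unique (h3 i).2.2 (h3' i).2.2
        subst hp
        have hL : L = L' := by rw [hν.2.2.1, hν'.2.2.1]
        subst hL
        refine h5'.congr fun n => ?_
        rw [key G (Fin r) (Fin r) θ _ D hD (X n)]
      · refine ⟨fun _ => 0, 0, fun X _ _ _ hX => ?_⟩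
        exact absurd ⟨X, inferInstance, inferInstance, inferInstance, hX⟩ hex
  · intro r A h1 h2
    have h : RowCol A := ⟨h1, h2⟩
    exact ⟨h.dom2, h.kerCond⟩
  · intro a h1 h2
    refine ⟨fun i => ?_, kerCond_fin a (kerCond_scalar a h1 fun g hg => h2 hg)⟩
    rw [Fin.sum_univ_one]
    exact h1
  · intro r A U k h1 h2
    exact kerCond_of_mul A U k h1 h2
  · intro N hN
    obtain ⟨h1, h2, -, h4, h5⟩ := hN
    exact t_chain G N h1 h2 h4 h5

end Pool.Agent.Results.MP_98dedd_gt.HermitianTorsion
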