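import Pool.Agent.V8H47.ST.Red

/-!
# The thresholds for the convergence of the torsion are sharp

`G` is a group and `ℤ[G]^ι → ℤ[G]^κ → ℤ[G]^θ` a part of a complex of finitely generated free modules,
with matrices `A`, `D` (for instance the cellular chain complex of the universal cover of a closed
aspherical manifold in the degrees `k + 1`, `k`, `k - 1`). For a finite `G`-set `X`, for instance
`X = G ⧸ N`, it gives a complex of free abelian groups; in the example its homology is `H_k` of the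
finite cover.

The normalised torsion is known to converge if in every row and in every column of `A` one coefficient
dominates all the others (factor `1`, equality allowed; `DominatedMatrices`), and, for torsion-free
groups, if the norm of `A` is less than `3 / √2` (starting file `LimitBelowThreshold`). We show that
both constants are sharp in the strongest sense: for every larger factor `c > 1`, and for every norm
`c > 3 / √2`, every complex can be replaced by a homotopy equivalent one, with isomorphic homology of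
all finite covers, whose boundary matrix satisfies the condition with this constant. So the question
of convergence for such complexes is the question for all complexes. And over the Heisenberg group,
for such matrices the torsion does not converge, and has many different limits.
-/

set_option autoImplicit false

namespace Pool.Agent.Results.MP_98dedd_gt.SharpThresholds

open Matrix Filter Topology Pool.Agent.V8H47.ST Pool.Agent.Q181.TG
open Pool.Agent.Helper993.HeisDet (Heis)

/-- The homology, at the middle term, of the complex `ℤ^(X × ι) → ℤ^(X × κ) → ℤ^(X × θ)` of the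
finite `G`-set `X`. -/
abbrev Homology {G : Type} [Group G] {ι κ θ : Type} [Fintype κ]
    (A : Matrix ι κ (MonoidAlgebra ℤ G)) (D : Matrix κ θ (MonoidAlgebra ℤ G)) (X : Type)
    [Fintype X] [MulAction G X] : Type :=
  LinearMap.ker (reg X D).vecMulLinear ⧸
    (Submodule.span ℤ (Set.range (reg X A))).submoduleOf (LinearMap.ker (reg X D).vecMulLinear)

/-- The order of its torsion subgroup. -/
noncomputable def torsH {G : Type} [Group G] {ι κ θ : Type} [Fintype κ]
    (A : Matrix ι κ (MonoidAlgebra ℤ G)) (D : Matrix κ θ (MonoidAlgebra ℤ G)) (X : Type)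
    [Fintype X] [MulAction G X] : ℕ :=
  tc (Homology A D X)

/-- For all complexes with the boundary matrix `A` the normalised logarithm of the torsion of the
homology of the finite `G`-sets `X n` converges to `L`. -/
def ConvTo {G : Type} [Group G] (X : ℕ → Type) [∀ n, Fintype (X n)] [∀ n, MulAction G (X n)]
    {ι κ : Type} [Fintype κ] (A : Matrix ι κ (MonoidAlgebra ℤ G)) (L : ℝ) : Prop :=
  ∀ (θ : Type) [Fintype θ] (D : Matrix κ θ (MonoidAlgebra ℤ G)), A * D = 0 →
    Tendsto (fun n => Real.log (torsH A D (X n)) / Fintype.card (X n)) atTop (𝓝 L)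

/-- A decreasing chain of normal subgroups of finite index with trivial intersection. -/
def IsChain {G : Type} [Group G] (N : ℕ → Subgroup G) : Prop :=
  (∀ n, (N n).Normal) ∧ (∀ n, (N n).FiniteIndex) ∧ N 0 = ⊤ ∧ Antitone N ∧ ⨅ n, N n = ⊥

/-- Every number in `(0, r]` is the limit of the normalised torsion along a chain. -/
def EveryLimit {G : Type} [Group G] {ι κ : Type} [Fintype κ] (A : Matrix ι κ (MonoidAlgebra ℤ G))
    (r : ℝ) : Prop :=
  ∀ x : ℝ, 0 < x → x ≤ r → ∃ (N : ℕ → Subgroup G) (_ : ∀ n, Fintype (G ⧸ N n)),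
    IsChain N ∧ ConvTo (fun n => G ⧸ N n) A x

/-- Along some chain the normalised torsion does not converge. -/
def NoLimit {G : Type} [Group G] {ι κ : Type} [Fintype κ] (A : Matrix ι κ (MonoidAlgebra ℤ G)) :
    Prop :=
  ∃ (N : ℕ → Subgroup G) (_ : ∀ n, Fintype (G ⧸ N n)), IsChain N ∧
    ∀ L : ℝ, ¬ ConvTo (fun n => G ⧸ N n) A L

theorem key {G : Type} [Group G] {ι κ θ : Type} [Fintype κ] [Fintype θ]
    (A : Matrix ι κ (MonoidAlgebra ℤ G)) (D : Matrix κ θ (MonoidAlgebra ℤ G)) (hAD : A * D = 0)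
    (X : Type) [Fintype X] [MulAction G X] : torsH A D X = tc (Cok (reg X A)) := by
  classical
  have h0 : reg X (0 : Matrix ι θ (MonoidAlgebra ℤ G)) = 0 := by
    ext p q
    simp [reg]
  exact Pool.Agent.Q66.TG.t_hom _ _ _ (reg X A) (reg X D)
    (by rw [← Pool.Agent.Q151.TG.reg_mul, hAD, h0])

theorem hom_iso {G : Type} [Group G] {ι κ θ ι' κ' θ' : Type} [Fintype ι] [Fintype κ] [Fintype θ]
    [Fintype ι'] [Fintype κ'] [Fintype θ'] [DecidableEq κ] [DecidableEq κ']
    (A : Matrix ι κ (MonoidAlgebra ℤ G)) (D : Matrix κ θ (MonoidAlgebra ℤ G))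
    (B : Matrix ι' κ' (MonoidAlgebra ℤ G)) (D' : Matrix κ' θ' (MonoidAlgebra ℤ G))
    (h : ChainEq A D B D') (X : Type) [Fintype X] [MulAction G X] :
    Nonempty (Homology A D X ≃+ Homology B D' X) := by
  classical
  have h1 := chainEq_reg X A D B D' h
  have h2 := hm_equiv (reg X A) (reg X D) (reg X B) (reg X D') (by convert h1)
  exact h2

theorem red_dom {G : Type} [Group G] {ι κ θ : Type} [Fintype ι] [Fintype κ] [Fintype θ]
    [DecidableEq ι] [DecidableEq κ] [DecidableEq θ]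
    (A : Matrix ι κ (MonoidAlgebra ℤ G)) (D : Matrix κ θ (MonoidAlgebra ℤ G)) (hAD : A * D = 0)
    (c : ℝ) (hc : 1 < c) : ∃ (κ' θ' : Type) (_ : Fintype κ') (_ : Fintype θ') (_ : DecidableEq κ')
      (B : Matrix κ' κ' (MonoidAlgebra ℤ G)) (D' : Matrix κ' θ' (MonoidAlgebra ℤ G)),
      B * D' = 0 ∧ ChainEq A D B D' ∧ DomBy c B := by
  obtain ⟨h1, h2⟩ := chainEq_pad A D hAD
  obtain ⟨N, B, hE, hB⟩ := dom_model
    (fromBlocks 0 0 A 0 : Matrix (κ ⊕ ι) (κ ⊕ ι) (MonoidAlgebra ℤ G)) c hc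
  obtain ⟨D', h3, h4⟩ := chainEq_of_eqv hE
    (fromBlocks D 0 0 1 : Matrix (κ ⊕ ι) (θ ⊕ ι) (MonoidAlgebra ℤ G)) h1
  exact ⟨_, _, inferInstance, inferInstance, inferInstance, B, D', h3, h2.trans h4, hB⟩

theorem red_thin {G : Type} [Group G] {ι κ θ : Type} [Fintype ι] [Fintype κ] [Fintype θ]
    [DecidableEq ι] [DecidableEq κ] [DecidableEq θ]
    (A : Matrix ι κ (MonoidAlgebra ℤ G)) (D : Matrix κ θ (MonoidAlgebra ℤ G)) (hAD : A * D = 0)
    (c : ℝ) (hc : 3 / Real.sqrt 2 < c) : ∃ (ι' κ' θ' : Type) (_ : Fintype ι') (_ : Fintype κ')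
      (_ : Fintype θ') (_ : DecidableEq κ')
      (B : Matrix ι' κ' (MonoidAlgebra ℤ G)) (D' : Matrix κ' θ' (MonoidAlgebra ℤ G)),
      B * D' = 0 ∧ ChainEq A D B D' ∧ Thin c B := by
  obtain ⟨q, i1, i2, B, hE, hB⟩ := thin_eqv A c (by
    have h2 : Real.sqrt 2 ^ 2 = 2 := Real.sq_sqrt two_pos.le
    have h3 : (3 / Real.sqrt 2) ^ 2 = 9 / 2 := by rw [div_pow, h2]; norm_num
    have h4 : 0 < 3 / Real.sqrt 2 := by positivity
    nlinarith)
  obtain ⟨D', h3, h4⟩ := chainEq_of_eqv hE D hAD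
  exact ⟨_, _, _, inferInstance, inferInstance, inferInstance, inferInstance, B, D', h3, h4, hB⟩

/-- Convergence is invariant. -/
theorem conv_of {G : Type} [Group G] (X : ℕ → Type) [∀ n, Fintype (X n)] [∀ n, MulAction G (X n)]
    {ι κ θ ι' κ' θ' : Type} [Fintype ι] [Fintype κ] [Fintype θ]
    [Fintype ι'] [Fintype κ'] [Fintype θ'] [DecidableEq κ] [DecidableEq κ']
    {A : Matrix ι κ (MonoidAlgebra ℤ G)} {D : Matrix κ θ (MonoidAlgebra ℤ G)}
    {B : Matrix ι' κ' (MonoidAlgebra ℤ G)} {D' : Matrix κ' θ' (MonoidAlgebra ℤ G)}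
    (hAD : A * D = 0) (hBD : B * D' = 0) (h : ChainEq A D B D') (L : ℝ) :
    ConvTo X B L ↔ ConvTo X A L := by
  have e : ∀ n, tc (Cok (reg (X n) A)) = tc (Cok (reg (X n) B)) := by
    intro n
    rw [← key A D hAD (X n), ← key B D' hBD (X n)]
    exact f_tc.1 _ _ (hom_iso A D B D' h (X n))
  constructor
  · intro hB θ₁ _ D₁ hD₁
    have h1 := hB θ' D' hBD
    simp only [key A D₁ hD₁, e]
    simp only [key B D' hBD] at h1
    exact h1
  · intro hA θ₁ _ D₁ hD₁
    have h1 := hA θ D hAD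
    simp only [key B D₁ hD₁, ← e]
    simp only [key A D hAD] at h1
    exact h1

theorem heis_conv (N : ℕ) (C : ℕ → Subgroup (Heis ℤ)) (i : ∀ n, Fintype (Heis ℤ ⧸ C n)) (L : ℝ) :
    ConvTo (fun n => Heis ℤ ⧸ C n) (hm N) L ↔ Tendsto (nlog (hm N) C) atTop (𝓝 L) := by
  have e : ∀ n, nlog (hm N) C n = Real.log (tc (Cok (reg (Heis ℤ ⧸ C n) (hm N)))) /
      Fintype.card (Heis ℤ ⧸ C n) := by
    intro n
    unfold nlog
    rw [Nat.card_eq_fintype_card]
  constructor
  · intro h
    have h1 := h (Fin 0) (0 : Matrix (Fin 1) (Fin 0) _) (Matrix.mul_zero _)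
    simp only [key (hm N) (0 : Matrix (Fin 1) (Fin 0) _) (Matrix.mul_zero _)] at h1
    refine h1.congr fun n => (e n).symm
  · intro h θ _ D hD
    simp only [key (hm N) D hD]
    exact h.congr e

theorem heis_all : Pool.Agent.Q181.TG.S_heis :=
  Pool.Agent.Q151.TG.t_heis Pool.Agent.Q96.TG.t_det f_tc

theorem heis_prop {κ' θ' ι' : Type} [Fintype κ'] [Fintype θ'] [Fintype ι'] [DecidableEq κ']
    (N : ℕ) (hN : 2 ≤ N)
    {B : Matrix ι' κ' (MonoidAlgebra ℤ (Heis ℤ))} {D' : Matrix κ' θ' (MonoidAlgebra ℤ (Heis ℤ))}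
    (hBD : B * D' = 0)
    (h : ChainEq (hm N) (0 : Matrix (Fin 1) (Fin 0) (MonoidAlgebra ℤ (Heis ℤ))) B D') :
    EveryLimit B (Real.log N) ∧ (N = 10 → NoLimit B) := by
  constructor
  · intro x hx hx2
    obtain ⟨C, c1, c2, c3, c4, c5, c6, c7⟩ := heis_all.1 N hN x hx hx2
    have i1 : ∀ n, Fintype (Heis ℤ ⧸ C n) := fun n => by
      have := c2 n
      exact Fintype.ofFinite _
    refine ⟨C, i1, ⟨c1, c2, c3, c4, c5⟩, ?_⟩
    rw [conv_of (fun n => Heis ℤ ⧸ C n) (Matrix.mul_zero _) hBD h, heis_conv]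
    exact c7
  · rintro rfl
    obtain ⟨C, c1, c2, c3, c4, c5, c6, c7⟩ := heis_all.2
    have i1 : ∀ n, Fintype (Heis ℤ ⧸ C n) := fun n => by
      have := c2 n
      exact Fintype.ofFinite _
    refine ⟨C, i1, ⟨c1, c2, c3, c4, c5⟩, fun L hL => ?_⟩
    rw [conv_of (fun n => Heis ℤ ⧸ C n) (Matrix.mul_zero _) hBD h, heis_conv] at hL
    exact c7 ⟨L, hL⟩

/-- (1) Let `A`, `D` be matrices over the group ring `ℤ[G]` of any group with `A * D = 0`. For every
`c > 1` the complex is homotopy equivalent in the middle degree to one with a square boundary matrix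
dominated by its diagonal with the factor `c`, and for every `c > 3 / √2` to one with a thin boundary
matrix of norm at most `c`.
(2) Homotopy equivalent complexes have isomorphic middle homology for all finite `G`-sets, so for all
finite covers.
(3) So for each sequence of finite `G`-sets the normalised torsion converges for all matrices if it
converges for the matrices dominated with the factor `c`, for one `c > 1`, or for the thin matrices of
norm at most `c`, for one `c > 3 / √2`.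
(4) For the Heisenberg group, every `N ≥ 2` and `c` as above there are such matrices for which the
normalised torsion has every limit in `(0, log N]` along suitable chains of normal subgroups of finite
index with trivial intersection, and if `N = 10` it does not converge along another such chain. -/
theorem result :
    (∀ (G : Type) [Group G] (ι κ θ : Type) [Fintype ι] [Fintype κ] [Fintype θ] [DecidableEq κ]
      (A : Matrix ι κ (MonoidAlgebra ℤ G)) (D : Matrix κ θ (MonoidAlgebra ℤ G)), A * D = 0 →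
      (∀ c : ℝ, 1 < c → ∃ (κ' θ' : Type) (_ : Fintype κ') (_ : Fintype θ') (_ : DecidableEq κ')
        (B : Matrix κ' κ' (MonoidAlgebra ℤ G)) (D' : Matrix κ' θ' (MonoidAlgebra ℤ G)),
        B * D' = 0 ∧ ChainEq A D B D' ∧ DomBy c B) ∧
      ∀ c : ℝ, 3 / Real.sqrt 2 < c → ∃ (ι' κ' θ' : Type) (_ : Fintype ι') (_ : Fintype κ')
        (_ : Fintype θ') (_ : DecidableEq κ')
        (B : Matrix ι' κ' (MonoidAlgebra ℤ G)) (D' : Matrix κ' θ' (MonoidAlgebra ℤ G)),
        B * D' = 0 ∧ ChainEq A D B D' ∧ Thin c B) ∧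
    (∀ (G : Type) [Group G] (ι κ θ ι' κ' θ' : Type) [Fintype ι] [Fintype κ] [Fintype θ]
      [Fintype ι'] [Fintype κ'] [Fintype θ'] [DecidableEq κ] [DecidableEq κ']
      (A : Matrix ι κ (MonoidAlgebra ℤ G)) (D : Matrix κ θ (MonoidAlgebra ℤ G))
      (B : Matrix ι' κ' (MonoidAlgebra ℤ G)) (D' : Matrix κ' θ' (MonoidAlgebra ℤ G)),
      ChainEq A D B D' → ∀ (X : Type) [Fintype X] [MulAction G X],
        Nonempty (Homology A D X ≃+ Homology B D' X)) ∧
    (∀ (G : Type) [Group G] (X : ℕ → Type) [∀ n, Fintype (X n)] [∀ n, MulAction G (X n)],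
      ((∃ c : ℝ, 1 < c ∧ ∀ (κ : Type) [Fintype κ] (B : Matrix κ κ (MonoidAlgebra ℤ G)),
          DomBy c B → ∃ L, ConvTo X B L) ∨
        (∃ c : ℝ, 3 / Real.sqrt 2 < c ∧ ∀ (ι κ : Type) [Fintype ι] [Fintype κ]
          (B : Matrix ι κ (MonoidAlgebra ℤ G)), Thin c B → ∃ L, ConvTo X B L)) →
      ∀ (ι κ : Type) [Fintype ι] [Fintype κ] (A : Matrix ι κ (MonoidAlgebra ℤ G)),
        ∃ L, ConvTo X A L) ∧
    ∀ N : ℕ, 2 ≤ N →
      (∀ c : ℝ, 1 < c → ∃ (κ : Type) (_ : Fintype κ) (B : Matrix κ κ (MonoidAlgebra ℤ (Heis ℤ))),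
        DomBy c B ∧ EveryLimit B (Real.log N) ∧ (N = 10 → NoLimit B)) ∧
      ∀ c : ℝ, 3 / Real.sqrt 2 < c → ∃ (ι κ : Type) (_ : Fintype ι) (_ : Fintype κ)
        (B : Matrix ι κ (MonoidAlgebra ℤ (Heis ℤ))),
        Thin c B ∧ EveryLimit B (Real.log N) ∧ (N = 10 → NoLimit B) := by
  classical
  refine ⟨fun G _ ι κ θ _ _ _ _ A D hAD => ⟨fun c hc => ?_, fun c hc => ?_⟩,
    fun G _ ι κ θ ι' κ' θ' _ _ _ _ _ _ _ _ A D B D' h X _ _ => hom_iso A D B D' h X, ?_,
    fun N hN => ⟨fun c hc => ?_, fun c hc => ?_⟩⟩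
  · exact red_dom A D hAD c hc
  · exact red_thin A D hAD c hc
  · rintro G _ X _ _ (⟨c, hc, h⟩ | ⟨c, hc, h⟩) ι κ _ _ A
    · obtain ⟨κ', θ', i1, i2, i3, B, D', h1, h2, h3⟩ :=
        red_dom A (0 : Matrix κ (Fin 0) (MonoidAlgebra ℤ G)) (Matrix.mul_zero _) c hc
      obtain ⟨L, hL⟩ := h κ' B h3
      exact ⟨L, (conv_of X (Matrix.mul_zero _) h1 h2 L).1 hL⟩
    · obtain ⟨ι', κ', θ', i0, i1, i2, i3, B, D', h1, h2, h3⟩ :=
        red_thin A (0 : Matrix κ (Fin 0) (MonoidAlgebra ℤ G)) (Matrix.mul_zero _) c hc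
      obtain ⟨L, hL⟩ := h ι' κ' B h3
      exact ⟨L, (conv_of X (Matrix.mul_zero _) h1 h2 L).1 hL⟩
  · obtain ⟨κ', θ', i1, i2, i3, B, D', h1, h2, h3⟩ :=
      red_dom (hm N) (0 : Matrix (Fin 1) (Fin 0) (MonoidAlgebra ℤ (Heis ℤ))) (Matrix.mul_zero _) c hc
    obtain ⟨g1, g2⟩ := heis_prop N hN h1 (by convert h2)
    exact ⟨κ', i1, B, h3, g1, g2⟩
  · obtain ⟨ι', κ', θ', i0, i1, i2, i3, B, D', h1, h2, h3⟩ :=
      red_thin (hm N) (0 : Matrix (Fin 1) (Fin 0) (MonoidAlgebra ℤ (Heis ℤ))) (Matrix.mul_zero _) c hc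
    obtain ⟨g1, g2⟩ := heis_prop N hN h1 (by convert h2)
    exact ⟨ι', κ', i0, i1, B, h3, g1, g2⟩

end Pool.Agent.Results.MP_98dedd_gt.SharpThresholds
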